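import Pool.Agent.K3h5.IB.Stm

/-!
# Iterated biased random walks: the stacks are almost surely fair (brick ASFAIR)
-/

set_option autoImplicit false

open MeasureTheory Filter Topology

namespace Pool.Agent.K3h51.IB

open Pool.Agent.K3h5.IB

variable {d : ℕ}

lemma mp_eval {p : ℕ → D d → ℝ} {q : D d → ℝ} (h1 : ∀ o, IsProbabilityMeasure (lam p q o))
    (k : ℕ) (o : Option (J d)) :
    MeasurePreserving (fun x : ℕ → S d => x k o) (PP p q) (lam p q o) := by
  have := h1
  have : IsProbabilityMeasure (nu p q) := by unfold nu; infer_instance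
  have h2 : MeasurePreserving (Function.eval o) (nu p q) (lam p q o) :=
    measurePreserving_eval_infinitePi (lam p q) o
  have h3 : MeasurePreserving (Function.eval k) (PP p q) (nu p q) :=
    measurePreserving_eval_infinitePi (fun _ : ℕ => nu p q) k
  exact h2.comp h3

lemma lam_const (p : ℕ → D d → ℝ) (q : D d → ℝ) (i m : ℕ) (E : Finset (D d)) :
    lam p q (some (i, m, E)) = lam p q (some (i, 0, E)) := by
  cases i <;> rfl

theorem t_ASFAIR : S_PROB → S_ASFAIR := by
  intro hprob d p q hpar
  obtain ⟨h1, h2, h3, -, h5, h6, h7⟩ := hprob d p q hpar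
  have := h1
  have := h2
  have := h3
  have hmem : ∀ᵐ x ∂(PP p q), ∀ (k i m : ℕ) (E : Finset (D d)), E.Nonempty →
      x k (some (i, m, E)) ∈ E := by
    rw [ae_all_iff]; intro k
    rw [ae_all_iff]; intro i
    rw [ae_all_iff]; intro m
    rw [ae_all_iff]; intro E
    by_cases hE : E.Nonempty
    swap
    · exact Eventually.of_forall fun x h => absurd h hE
    have key : ∀ᵐ x ∂(PP p q), ∀ e : D d, e ∉ E → x k (some (i, m, E)) ≠ e := by
      rw [ae_all_iff]; intro e
      by_cases he : e ∈ E
      · exact Eventually.of_forall fun x h => absurd he h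
      have h8 : (lam p q (some (i, m, E))) {e} = 0 := by
        have := h7 i m E hE e he
        rwa [measureReal_eq_zero_iff] at this
      have h9 := (mp_eval h1 k (some (i, m, E))).measure_preimage
        (measurableSet_singleton e).nullMeasurableSet
      rw [h8] at h9
      have h10 : ∀ᵐ x ∂(PP p q), x k (some (i, m, E)) ≠ e := by
        rw [ae_iff]
        have h11 : {x : ℕ → S d | ¬ x k (some (i, m, E)) ≠ e} =
            (fun x : ℕ → S d => x k (some (i, m, E))) ⁻¹' {e} := by
          ext x
          simp
        rw [h11]
        exact h9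
      filter_upwards [h10] with x hx _ using hx
    filter_upwards [key] with x hx _
    by_contra h
    exact hx _ h rfl
  have hfair : ∀ᵐ x ∂(PP p q), ∀ (k i : ℕ) (E : Finset (D d)) (e : D d), e ∈ E →
      ∀ M, ∃ m ≥ M, x k (some (i, m, E)) = e := by
    rw [ae_all_iff]; intro k
    rw [ae_all_iff]; intro i
    rw [ae_all_iff]; intro E
    rw [ae_all_iff]; intro e
    by_cases he : e ∈ E
    swap
    · exact Eventually.of_forall fun x h => absurd h he
    have hE : E.Nonempty := ⟨e, he⟩
    suffices h : ∀ M, ∀ᵐ x ∂(PP p q), ∃ m ≥ M, x k (some (i, m, E)) = e by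
      filter_upwards [ae_all_iff.2 h] with x hx _ using hx
    intro M
    -- the probability of `e`
    have hpos : 0 < (lam p q (some (i, 0, E))) {e} := by
      have hr : 0 < (lam p q (some (i, 0, E))).real {e} := by
        cases i with
        | zero =>
          rw [h6 0 E hE e he]
          exact div_pos (hpar.qpos e) (Finset.sum_pos (fun e' _ => hpar.qpos e') hE)
        | succ i =>
          rw [h5 i 0 E hE e he]
          exact div_pos (hpar.pos _ e) (Finset.sum_pos (fun e' _ => hpar.pos _ e') hE)
      by_contra h0
      rw [not_lt, nonpos_iff_eq_zero] at h0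
      rw [measureReal_def, h0] at hr
      simp at hr
    set b : ENNReal := (lam p q (some (i, 0, E))) {e}ᶜ with hb
    have hb1 : b < 1 := by
      rw [hb, prob_compl_eq_one_sub (measurableSet_singleton e)]
      exact ENNReal.sub_lt_self ENNReal.one_ne_top one_ne_zero hpos.ne'
    rw [ae_iff]
    have hle : ∀ n : ℕ, (PP p q) {x | ¬ ∃ m ≥ M, x k (some (i, m, E)) = e} ≤ b ^ n := by
      intro n
      set s : Finset (Option (J d)) :=
        (Finset.Ico M (M + n)).image fun m => (some (i, m, E) : Option (J d)) with hs
      have e1 : (nu p q) (Set.pi s fun _ => ({e}ᶜ : Set (D d))) = b ^ n := by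
        unfold nu
        rw [Measure.infinitePi_pi (lam p q) (fun o _ => (measurableSet_singleton e).compl)]
        rw [hs, Finset.prod_image]
        · rw [Finset.prod_congr rfl (g := fun _ => b)
            (fun m _ => by rw [lam_const p q i m E])]
          rw [Finset.prod_const, Nat.card_Ico]
          congr 1
          omega
        · intro m _ m' _ h
          simpa using h
      have e2 : MeasurePreserving (Function.eval k) (PP p q) (nu p q) :=
        measurePreserving_eval_infinitePi (fun _ : ℕ => nu p q) k
      have e3 := e2.measure_preimage (s := Set.pi s fun _ => ({e}ᶜ : Set (D d)))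
        (MeasurableSet.pi (Finset.countable_toSet s)
          fun o _ => (measurableSet_singleton e).compl).nullMeasurableSet
      rw [← e1, ← e3]
      apply measure_mono
      intro x hx
      rw [Set.mem_ofPred_eq] at hx
      push Not at hx
      rw [Set.mem_preimage, Set.mem_pi]
      intro o ho
      rw [hs, Finset.mem_coe, Finset.mem_image] at ho
      obtain ⟨m, hm, rfl⟩ := ho
      rw [Finset.mem_Ico] at hm
      exact hx m hm.1
    exact le_antisymm (ge_of_tendsto' (ENNReal.tendsto_pow_atTop_nhds_zero_of_lt_one hb1) hle)
      zero_le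
  filter_upwards [hmem, hfair] with x hx1 hx2 using ⟨hx1, hx2⟩

end Pool.Agent.K3h51.IB
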