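import Pool.Agent.K3h5.IB.Stm

/-!
# Iterated biased random walks: the law of the first walk (brick LAW0)
-/

set_option autoImplicit false

open MeasureTheory Filter Topology

namespace Pool.Agent.K3h51.IB

open Pool.Agent.K3h5.IB

variable {d : ℕ}

lemma nbrs_univ (v : V d) : nbrs (Set.univ : Set (V d × D d)) v = Finset.univ := by
  unfold nbrs
  simp

lemma trans_univ {p : D d → ℝ} (h1 : ∑ e, p e = 1) (v w : V d) :
    Pool.Agent.K3h5.IB.trans p Set.univ v w = ∑ e, if vec e = w - v then p e else 0 := by
  unfold Pool.Agent.K3h5.IB.trans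
  rw [nbrs_univ]
  apply Finset.sum_congr rfl
  intro e _
  rw [h1, div_one]
  have h : (v + vec e = w) ↔ (vec e = w - v) := by rw [eq_sub_iff_add_eq, add_comm]
  simp only [h]

lemma path0_zero (x : ℕ → S d) : path0 x 0 = 0 := by simp [path0]

lemma path0_succ (x : ℕ → S d) (k : ℕ) : path0 x (k + 1) = path0 x k + vec (x k none) := by
  simp [path0, Finset.sum_range_succ]

lemma event_eq (y : ℕ → V d) (hy : y 0 = 0) (n : ℕ) :
    {x : ℕ → S d | ∀ k ≤ n, path0 x k = y k} =
      Set.pi (Finset.range n : Set ℕ) fun k => {s : S d | vec (s none) = y (k + 1) - y k} := by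
  ext x
  rw [Set.mem_pi]
  constructor
  · intro h k hk
    rw [Finset.mem_coe, Finset.mem_range] at hk
    have h1 := h (k + 1) hk
    have h2 := h k hk.le
    rw [path0_succ, h2] at h1
    show vec (x k none) = y (k + 1) - y k
    rw [← h1]
    simp
  · intro h k
    induction k with
    | zero => intro _; rw [path0_zero, hy]
    | succ k ih =>
      intro hk
      have h1 : vec (x k none) = y (k + 1) - y k := h k (by simpa using hk)
      rw [path0_succ, ih (by omega), h1]
      simp

theorem t_LAW0 : S_PROB → S_LAW0 := by
  classical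
  intro hprob d p q hpar n y
  obtain ⟨h1, h2, h3, h4, -⟩ := hprob d p q hpar
  have := h1
  have := h2
  have := h3
  unfold weight
  by_cases hy : y 0 = 0
  swap
  · rw [if_neg hy]
    have h5 : {x : ℕ → S d | ∀ k ≤ n, path0 x k = y k} = ∅ := by
      ext x
      simp only [Set.mem_ofPred_eq, Set.mem_empty_iff_false, iff_false]
      intro h
      apply hy
      rw [← h 0 (Nat.zero_le n), path0_zero]
    rw [h5, measureReal_empty]
  rw [if_pos hy, event_eq y hy n]
  have hm : ∀ T : Set (D d), MeasurableSet T := fun T => T.toFinite.measurableSet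
  have e1 : (PP p q) (Set.pi (Finset.range n : Set ℕ)
      fun k => {s : S d | vec (s none) = y (k + 1) - y k}) =
      ∏ k ∈ Finset.range n, (lam p q none) {e | vec e = y (k + 1) - y k} := by
    unfold PP
    rw [Measure.infinitePi_pi (fun _ : ℕ => nu p q)
      (t := fun k => {s : S d | vec (s none) = y (k + 1) - y k})]
    · apply Finset.prod_congr rfl
      intro k _
      have e2 : MeasurePreserving (Function.eval none) (nu p q) (lam p q none) :=
        measurePreserving_eval_infinitePi (lam p q) none
      exact e2.measure_preimage (s := {e | vec e = y (k + 1) - y k}) (hm _).nullMeasurableSet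
    · intro k _
      have e4 : Measurable fun s : S d => s none := measurable_pi_apply none
      exact e4 (hm {e | vec e = y (k + 1) - y k})
  rw [measureReal_def, e1, ENNReal.toReal_prod]
  apply Finset.prod_congr rfl
  intro k _
  rw [trans_univ (hpar.one 0), ← measureReal_def]
  have e3 := sum_measureReal_singleton (μ := lam p q none)
    (Finset.univ.filter fun e : D d => vec e = y (k + 1) - y k)
  rw [Finset.coe_filter] at e3
  simp only [Finset.mem_univ, true_and] at e3
  rw [← e3, Finset.sum_filter]
  apply Finset.sum_congr rfl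
  intro e _
  rw [h4 e]

end Pool.Agent.K3h51.IB
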