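import Pool.Agent.K3h5.IB.Stm

/-!
# Iterated biased random walks: measurability of the counts (brick MEAS2)
-/

set_option autoImplicit false

open MeasureTheory Filter Topology

namespace Pool.Agent.K3h51.IB

open Pool.Agent.K3h5.IB

variable {d : ℕ}

lemma meas_sInf {α : Type*} [MeasurableSpace α] (P : ℕ → α → Prop) (h : ∀ n, Measurable (P n)) :
    Measurable fun x => sInf {n | P n x} := by
  apply measurable_to_countable'
  intro k
  have h1 : (fun x => sInf {n | P n x}) ⁻¹' {k} =
      {x | (P k x ∧ ∀ j : ℕ, j < k → ¬ P j x) ∨ (k = 0 ∧ ∀ j : ℕ, ¬ P j x)} := by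
    ext x
    rw [Set.mem_preimage, Set.mem_singleton_iff]
    show sInf {n | P n x} = k ↔ (P k x ∧ ∀ j : ℕ, j < k → ¬ P j x) ∨ (k = 0 ∧ ∀ j : ℕ, ¬ P j x)
    constructor
    · intro hk
      by_cases hne : {n | P n x}.Nonempty
      · left
        have h2 := Nat.sInf_mem hne
        rw [hk] at h2
        refine ⟨h2, fun j hj => ?_⟩
        rw [← hk] at hj
        exact Nat.notMem_of_lt_sInf hj
      · right
        rw [Set.not_nonempty_iff_eq_empty] at hne
        rw [hne, Nat.sInf_empty] at hk
        refine ⟨hk.symm, fun j hj => ?_⟩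
        have : j ∈ {n | P n x} := hj
        rw [hne] at this
        exact this
    · rintro (⟨h2, h3⟩ | ⟨rfl, h2⟩)
      · apply le_antisymm (Nat.sInf_le h2)
        by_contra hcon
        rw [not_le] at hcon
        have h4 : sInf {n | P n x} ∈ {n | P n x} := Nat.sInf_mem ⟨k, h2⟩
        exact h3 _ hcon h4
      · have : {n | P n x} = ∅ := by
          ext j
          exact ⟨fun hj => h2 j hj, fun hj => absurd hj (Set.notMem_empty j)⟩
        rw [this, Nat.sInf_empty]
  rw [h1, measurableSet_setOfPred]
  refine ((h k).and (Measurable.forall fun j => ?_)).or (measurable_const.and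
    (Measurable.forall fun j => (h j).not))
  by_cases hj : j < k
  · simpa [hj] using (h j).not
  · simp [hj]

lemma meas_nth {α : Type*} [MeasurableSpace α] (P : ℕ → α → Prop) (h : ∀ n, Measurable (P n))
    (m : ℕ) : Measurable fun x => Nat.nth (fun n => P n x) m := by
  induction m using Nat.strong_induction_on with
  | _ m ih =>
    have h1 : (fun x => Nat.nth (fun n => P n x) m) =
        fun x => sInf {n | P n x ∧ ∀ k : ℕ, k < m → Nat.nth (fun n => P n x) k < n} := by
      funext x
      exact Nat.nth_eq_sInf _ _
    rw [h1]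
    apply meas_sInf
    intro n
    refine (h n).and (Measurable.forall fun k => ?_)
    by_cases hk : k < m
    · have h2 := ih k hk
      simp only [hk, true_imp_iff]
      rw [← measurableSet_setOfPred]
      exact measurableSet_lt h2 measurable_const
    · simp [hk]

lemma meas_index {α β : Type*} [MeasurableSpace α] [MeasurableSpace β] (f : ℕ → α → β)
    (hf : ∀ n, Measurable (f n)) (g : α → ℕ) (hg : Measurable g) :
    Measurable fun x => f (g x) x := by
  intro s hs
  have h1 : (fun x => f (g x) x) ⁻¹' s = ⋃ n, (g ⁻¹' {n} ∩ (f n) ⁻¹' s) := by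
    ext x
    simp
  rw [h1]
  exact MeasurableSet.iUnion fun n => (hg (measurableSet_singleton n)).inter (hf n hs)

lemma meas_eq {α β : Type*} [MeasurableSpace α] [MeasurableSpace β] [Countable β]
    [MeasurableSingletonClass β] {f g : α → β} (hf : Measurable f) (hg : Measurable g) :
    Measurable fun x => (f x = g x : Prop) := by
  have h1 : (fun x => (f x = g x : Prop)) = fun x => ∃ b, f x = b ∧ g x = b := by
    funext x
    apply propext
    exact ⟨fun h => ⟨g x, h, rfl⟩, fun ⟨b, h2, h3⟩ => h2.trans h3.symm⟩
  rw [h1]
  refine Measurable.exists fun b => Measurable.and ?_ ?_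
  · rw [← measurableSet_setOfPred]
    exact hf (measurableSet_singleton b)
  · rw [← measurableSet_setOfPred]
    exact hg (measurableSet_singleton b)

theorem t_MEAS2 : S_MEAS1 → S_MEAS2 := by
  classical
  intro hmeas d δ
  obtain ⟨h1, h2, -, -, -⟩ := hmeas d
  have hp : ∀ n, Measurable fun x : ℕ → S d => path0 x n := fun n => h1 0 n
  have hh : ∀ n, Measurable fun x : ℕ → S d => ht δ (path0 x n) := fun n =>
    (Measurable.of_discrete : Measurable (ht δ)).comp (hp n)
  have hcut : ∀ c, Measurable fun x : ℕ → S d => Cut δ x c := by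
    intro c
    unfold Cut
    refine (Measurable.forall fun j => ?_).and (Measurable.forall fun j => ?_)
    · by_cases hj : j ≤ c
      · simp only [hj, true_imp_iff]
        rw [← measurableSet_setOfPred]
        exact measurableSet_le (hh j) (hh c)
      · simp [hj]
    · by_cases hj : j > c
      · simp only [hj, true_imp_iff]
        rw [← measurableSet_setOfPred]
        exact measurableSet_lt (hh c) (hh j)
      · simp [hj]
  have hct : ∀ m, Measurable fun x : ℕ → S d => ct δ x m := fun m =>
    meas_nth (fun n x => Cut δ x n) hcut m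
  have hhit : ∀ m, Measurable fun x : ℕ → S d => hit δ x m := by
    intro m
    apply meas_sInf
    intro n
    exact meas_eq (h2 n) (meas_index (fun k x => path0 x k) hp _ (hct m))
  refine ⟨fun c => measurableSet_setOfPred.2 (hcut c), hct, hhit, fun K => ?_⟩
  have hv : ∀ T, Measurable fun x : ℕ → S d => visits (YY x) (block x 0 (ct δ x 1)) T := by
    intro T
    have e1 : (fun x : ℕ → S d => visits (YY x) (block x 0 (ct δ x 1)) T) =
        fun x => ∑ n ∈ Finset.range T, if YY x n ∈ block x 0 (ct δ x 1) then 1 else 0 := by
      funext x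
      unfold visits
      rw [Finset.card_filter]
    rw [e1]
    refine Finset.measurable_sum _ fun n _ => ?_
    refine Measurable.ite ?_ measurable_const measurable_const
    rw [measurableSet_setOfPred]
    show Measurable fun x : ℕ → S d => ∃ k : ℕ, 0 < k ∧ k ≤ ct δ x 1 ∧ path0 x k = YY x n
    refine Measurable.exists fun k => measurable_const.and (Measurable.and ?_ (meas_eq (hp k) (h2 n)))
    rw [← measurableSet_setOfPred]
    exact measurableSet_le measurable_const (hct 1)
  exact meas_index (fun T x => visits (YY x) (block x 0 (ct δ x 1)) T) hv _ (hhit K)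

end Pool.Agent.K3h51.IB
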